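import Pool.Agent.NPC.Defs

/-!
# The red-blue cut problem in directed graphs
-/

namespace Pool.Agent.NPC.H593R3.DRB

open Pool.Agent.NPC

/-- `V` lists the vertices, each once, and `A` lists the arcs `(tail, head)` of a finite directed
graph; loops and parallel arcs are allowed. -/
def IsDigraph (V : List ℕ) (A : List (ℕ × ℕ)) : Prop :=
  V.Nodup ∧ ∀ a ∈ A, a.1 ∈ V ∧ a.2 ∈ V

/-- There are no loops and no parallel arcs. -/
def IsSimple (A : List (ℕ × ℕ)) : Prop := A.Nodup ∧ ∀ a ∈ A, a.1 ≠ a.2

/-- The arcs in the list `A` that leave `X`: the tail lies in `X`, the head does not. -/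
def leaving (X : Finset ℕ) (A : List (ℕ × ℕ)) : List (ℕ × ℕ) :=
  A.filter (fun a => decide (a.1 ∈ X) && !decide (a.2 ∈ X))

/-- An instance `((V, R, B), (r, b))`: the list `V` of the vertices of a digraph, the list `R` of
its red arcs, the list `B` of its blue arcs, and the bounds `r` and `b`. -/
abbrev Instance : Type := (List ℕ × List (ℕ × ℕ) × List (ℕ × ℕ)) × (ℕ × ℕ)

/-- The instance consists of a finite digraph whose arcs are coloured red or blue, and numbers `r`,
`b` such that for some nonempty proper subset `X` of the vertex set, at most `r` red arcs and at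
most `b` blue arcs leave `X`. -/
def DirectedRedBlueCut (I : Instance) : Prop :=
  match I with
  | ((V, R, B), (r, b)) =>
    IsDigraph V (R ++ B) ∧
      ∃ X : Finset ℕ, X.Nonempty ∧ X ⊂ V.toFinset ∧
        (leaving X R).length ≤ r ∧ (leaving X B).length ≤ b

/-- The same problem for digraphs without loops and parallel arcs. -/
def SimpleDirectedRedBlueCut (I : Instance) : Prop :=
  IsSimple (I.1.2.1 ++ I.1.2.2) ∧ DirectedRedBlueCut I

end Pool.Agent.NPC.H593R3.DRB
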