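import Pool.Agent.H118R3.RBMem
import Pool.Agent.H593R3.DRB.Defs

/-!
# Membership in NP of the directed red-blue cut problem
-/

namespace Pool.Agent.NPC.H593R3.DRB

open Pool.Agent.NPC Pool.Agent.NPC.H118R3.RB

/-- Test: the lists describe a digraph. -/
def digraphB (V : List ℕ) (A : List (ℕ × ℕ)) : Bool :=
  nodupB V && A.all (fun a => decide (a.1 ∈ V) && decide (a.2 ∈ V))

theorem digraphB_iff {V : List ℕ} {A : List (ℕ × ℕ)} : digraphB V A = true ↔ IsDigraph V A := by
  unfold digraphB IsDigraph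
  simp only [Bool.and_eq_true, nodupB_iff, List.all_eq_true, decide_eq_true_eq]

/-- Test: the arcs are distinct and there are no loops. -/
def simpleB (A : List (ℕ × ℕ)) : Bool :=
  A.zipIdx.all (fun p => A.zipIdx.all (fun q => !decide (p.2 < q.2) || !decide (p.1 = q.1))) &&
    A.all (fun a => !decide (a.1 = a.2))

theorem simpleB_iff {A : List (ℕ × ℕ)} : simpleB A = true ↔ IsSimple A := by
  unfold simpleB IsSimple
  rw [Bool.and_eq_true]
  refine and_congr ?_ ?_
  · rw [List.Nodup, List.pairwise_iff_getElem]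
    simp only [List.all_eq_true, Bool.or_eq_true, Bool.not_eq_true', decide_eq_false_iff_not,
      List.mem_zipIdx_iff_getElem?]
    constructor
    · intro H i j hi hj hij
      have := H (A[i], i) (by simp [hi]) (A[j], j) (by simp [hj])
      exact this.resolve_left (by simp only; omega)
    · rintro H ⟨a, i⟩ hi ⟨b, j⟩ hj
      simp only at hi hj
      obtain ⟨hi', rfl⟩ := List.getElem?_eq_some_iff.1 hi
      obtain ⟨hj', rfl⟩ := List.getElem?_eq_some_iff.1 hj
      by_cases hij : i < j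
      · right
        exact H i j hi' hj' hij
      · left; exact hij
  · simp only [List.all_eq_true, Bool.not_eq_true', decide_eq_false_iff_not, ne_eq]

/-- Number of arcs leaving a list of vertices. -/
def outLen (w : List ℕ) (A : List (ℕ × ℕ)) : ℕ :=
  (A.filter (fun a => decide (a.1 ∈ w) && !decide (a.2 ∈ w))).length

theorem outLen_eq (w : List ℕ) (A : List (ℕ × ℕ)) :
    outLen w A = (leaving w.toFinset A).length := by
  unfold outLen leaving
  simp only [List.mem_toFinset]

/-- The verifier. -/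
def ver (x : Instance × List ℕ) : Bool :=
  ((digraphB x.1.1.1 (x.1.1.2.1 ++ x.1.1.2.2) &&
    ((!x.2.isEmpty) && (x.2.all (fun v => decide (v ∈ x.1.1.1)) &&
      x.1.1.1.any (fun v => !decide (v ∈ x.2))))) &&
  (decide (outLen x.2 x.1.1.2.1 ≤ x.1.2.1) && decide (outLen x.2 x.1.1.2.2 ≤ x.1.2.2)))

section PolyVer

variable {α : Type} [TEnc α]

theorem poly_digraphB {V : α → List ℕ} {A : α → List (ℕ × ℕ)} (hV : Poly V) (hA : Poly A) :
    Poly (fun a => digraphB (V a) (A a)) := by
  unfold digraphB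
  refine Poly.and (poly_nodupB hV) ?_
  refine Poly.all (p := fun a e => decide (e.1 ∈ V a) && decide (e.2 ∈ V a)) hA ?_
  have hV' : Poly (fun x : α × ℕ × ℕ => V x.1) := hV.comp (Poly.fst Poly.id)
  exact Poly.and (Poly.decide_mem (Poly.fst (Poly.snd Poly.id)) hV')
    (Poly.decide_mem (Poly.snd (Poly.snd Poly.id)) hV')

theorem poly_simpleB {A : α → List (ℕ × ℕ)} (hA : Poly A) : Poly (fun a => simpleB (A a)) := by
  unfold simpleB
  refine Poly.and ?_ ?_
  · refine Poly.all (p := fun a p => (A a).zipIdx.all (fun q => !decide (p.2 < q.2) ||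
      !decide (p.1 = q.1))) (Poly.zipIdx hA) ?_
    refine Poly.all (p := fun (x : α × (ℕ × ℕ) × ℕ) (q : (ℕ × ℕ) × ℕ) => !decide (x.2.2 < q.2) ||
      !decide (x.2.1 = q.1)) ((Poly.zipIdx hA).comp (Poly.fst Poly.id)) ?_
    exact Poly.or (Poly.not (Poly.decide_lt (Poly.snd (Poly.snd (Poly.fst Poly.id)))
      (Poly.snd (Poly.snd Poly.id)))) (Poly.not (Poly.decide_eq
        (Poly.fst (Poly.snd (Poly.fst Poly.id))) (Poly.fst (Poly.snd Poly.id))))
  · exact Poly.all (p := fun _ (e : ℕ × ℕ) => !decide (e.1 = e.2)) hA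
      (Poly.not (Poly.decide_eq (Poly.fst (Poly.snd Poly.id)) (Poly.snd (Poly.snd Poly.id))))

theorem poly_outLen {A : α → List (ℕ × ℕ)} {w : α → List ℕ} (hA : Poly A) (hw : Poly w) :
    Poly (fun a => outLen (w a) (A a)) := by
  unfold outLen
  refine Poly.length (Poly.filter (p := fun a e => decide (e.1 ∈ w a) && !decide (e.2 ∈ w a))
    hA ?_)
  have hw' : Poly (fun x : α × ℕ × ℕ => w x.1) := hw.comp (Poly.fst Poly.id)
  exact Poly.and (Poly.decide_mem (Poly.fst (Poly.snd Poly.id)) hw')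
    (Poly.not (Poly.decide_mem (Poly.snd (Poly.snd Poly.id)) hw'))

end PolyVer

theorem poly_ver : Poly ver := by
  have hI : Poly (fun x : Instance × List ℕ => x.1) := Poly.fst Poly.id
  have hV : Poly (fun x : Instance × List ℕ => x.1.1.1) := Poly.fst (Poly.fst hI)
  have hR : Poly (fun x : Instance × List ℕ => x.1.1.2.1) := Poly.fst (Poly.snd (Poly.fst hI))
  have hB : Poly (fun x : Instance × List ℕ => x.1.1.2.2) := Poly.snd (Poly.snd (Poly.fst hI))
  have hr : Poly (fun x : Instance × List ℕ => x.1.2.1) := Poly.fst (Poly.snd hI)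
  have hb : Poly (fun x : Instance × List ℕ => x.1.2.2) := Poly.snd (Poly.snd hI)
  have hw : Poly (fun x : Instance × List ℕ => x.2) := Poly.snd Poly.id
  refine Poly.and (Poly.and (poly_digraphB hV (Poly.append hR hB))
    (Poly.and (Poly.not (Poly.isEmpty hw)) (Poly.and ?_ ?_)))
      (Poly.and (Poly.decide_le (poly_outLen hR hw) hr) (Poly.decide_le (poly_outLen hB hw) hb))
  · exact Poly.all (p := fun x v => decide (v ∈ x.1.1.1)) hw
      (Poly.decide_mem (Poly.snd Poly.id) (hV.comp (Poly.fst Poly.id)))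
  · exact Poly.any (p := fun x v => !decide (v ∈ x.2)) hV
      (Poly.not (Poly.decide_mem (Poly.snd Poly.id) (hw.comp (Poly.fst Poly.id))))

theorem ver_iff {V : List ℕ} {R B : List (ℕ × ℕ)} {r b : ℕ} {w : List ℕ} :
    ver (((V, R, B), (r, b)), w) = true ↔
      IsDigraph V (R ++ B) ∧ w.toFinset.Nonempty ∧ w.toFinset ⊂ V.toFinset ∧
        (leaving w.toFinset R).length ≤ r ∧ (leaving w.toFinset B).length ≤ b := by
  unfold ver
  simp only [Bool.and_eq_true, digraphB_iff, decide_eq_true_eq, outLen_eq]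
  have h1 : (!w.isEmpty) = true ↔ w.toFinset.Nonempty := by
    rw [List.toFinset_nonempty_iff]
    cases w <;> simp
  have h2 : (w.all (fun v => decide (v ∈ V)) = true ∧ V.any (fun v => !decide (v ∈ w)) = true) ↔
      w.toFinset ⊂ V.toFinset := by
    rw [Finset.ssubset_def]
    simp only [List.all_eq_true, decide_eq_true_eq, List.any_eq_true, Bool.not_eq_true',
      decide_eq_false_iff_not, Finset.subset_iff, List.mem_toFinset, not_forall]
    constructor
    · rintro ⟨h1, v, hv, hw⟩
      exact ⟨fun v hv => h1 v hv, v, hv, hw⟩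
    · rintro ⟨h1, v, hv, hw⟩
      exact ⟨fun v hv => h1 v hv, v, hv, hw⟩
  rw [h1, h2]
  tauto

/-- A bound for certificates. -/
theorem sz_toList_le {V : List ℕ} {X : Finset ℕ} (hX : X ⊆ V.toFinset) (n : ℕ) (hn : sz V ≤ n) :
    sz X.toList ≤ (Polynomial.X * (Polynomial.X + 1) + 1 : Polynomial ℕ).eval n := by
  have e1 : X.toList.length ≤ V.length := by
    rw [Finset.length_toList]
    calc X.card ≤ V.toFinset.card := Finset.card_le_card hX
      _ ≤ V.length := List.toFinset_card_le V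
  have e2 := length_lt_sz V
  have e4 := sz_le_length_mul X.toList (sz V) (fun v hv =>
    (sz_le_of_mem (List.mem_toFinset.1 (hX (by simpa using hv)))).le)
  simp only [Polynomial.eval_add, Polynomial.eval_mul, Polynomial.eval_X,
    Polynomial.eval_one]
  refine e4.trans (Nat.add_le_add_right (Nat.mul_le_mul (by omega) (by omega)) 1)

theorem inNPP_directed : InNPP DirectedRedBlueCut := by
  refine inNPP_of poly_ver (Polynomial.X * (Polynomial.X + 1) + 1) ?_
  rintro ⟨⟨V, R, B⟩, ⟨r, b⟩⟩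
  simp only [ver_iff, DirectedRedBlueCut]
  constructor
  · rintro ⟨h1, X, h5, h6, h8, h9⟩
    refine ⟨X.toList, sz_toList_le h6.1 _ ?_, ?_⟩
    · simp only [sz_pair]
      omega
    · rw [Finset.toList_toFinset]
      exact ⟨h1, h5, h6, h8, h9⟩
  · rintro ⟨w, -, h1, h2, h3, h4, h5⟩
    exact ⟨h1, w.toFinset, h2, h3, h4, h5⟩

theorem inNPP_simpleDirected : InNPP SimpleDirectedRedBlueCut := by
  have hp : Poly (fun x : Instance × List ℕ => simpleB (x.1.1.2.1 ++ x.1.1.2.2) && ver x) :=
    Poly.and (poly_simpleB (Poly.append (Poly.fst (Poly.snd (Poly.fst (Poly.fst Poly.id))))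
      (Poly.snd (Poly.snd (Poly.fst (Poly.fst Poly.id)))))) poly_ver
  refine inNPP_of hp (Polynomial.X * (Polynomial.X + 1) + 1) ?_
  rintro ⟨⟨V, R, B⟩, ⟨r, b⟩⟩
  simp only [Bool.and_eq_true, ver_iff, simpleB_iff, SimpleDirectedRedBlueCut, DirectedRedBlueCut]
  constructor
  · rintro ⟨h0, h1, X, h5, h6, h8, h9⟩
    refine ⟨X.toList, sz_toList_le h6.1 _ ?_, ?_⟩
    · simp only [sz_pair]
      omega
    · rw [Finset.toList_toFinset]
      exact ⟨h0, h1, h5, h6, h8, h9⟩
  · rintro ⟨w, -, h0, h1, h2, h3, h4, h5⟩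
    exact ⟨h0, h1, w.toFinset, h2, h3, h4, h5⟩

end Pool.Agent.NPC.H593R3.DRB
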