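import Pool.Agent.H118R3.RBHard
import Pool.Agent.H593R3.DRB.Defs

/-!
# Reduction of the undirected red-blue s-t cut problem to the directed red-blue cut problem
-/

namespace Pool.Agent.NPC.H593R3.DRB

open Pool.Agent.NPC Pool.Agent.NPC.H634R2 Pool.Agent.NPC.H118R3.RB

/-- Validity of an undirected instance with terminals. -/
def Valid (I : H118R3.RB.Instance) : Prop :=
  IsGraph I.1.1 (I.1.2.1 ++ I.1.2.2) ∧ I.2.1.1 ∈ I.1.1 ∧ I.2.1.2 ∈ I.1.1 ∧ I.2.1.1 ≠ I.2.1.2

theorem hardPr_redBlueCut : HardPr Valid RedBlueCut := by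
  refine hardPr_CLIQUE.trans poly_red ?_ (fun _ h => red_correct h)
  rintro ⟨⟨V, E⟩, k⟩ ⟨hG, hk⟩
  simp only at hG hk
  unfold red
  simp only
  split_ifs with hle
  · refine ⟨isGraph_red hG, ?_, ?_, ?_⟩
    · simp [verts]
    · simp [verts]
    · simp
  · refine ⟨⟨?_, ?_, ?_⟩, ?_, ?_, ?_⟩ <;> simp

/-- The arcs replacing the edges: an edge is replaced by two opposite arcs. -/
def base (E : List (ℕ × ℕ)) : List (ℕ × ℕ) :=
  E.map (fun e => (3 * e.1, 3 * e.2)) ++ E.map (fun e => (3 * e.2, 3 * e.1))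

/-- The vertices of the new digraph. -/
def dV (V : List ℕ) (M : ℕ) : List ℕ :=
  V.map (fun v => 3 * v) ++ ((List.range M).map (fun i => 3 * i + 1) ++
    (List.range M).map (fun i => 3 * i + 2))

/-- The forcing arcs. -/
def pred (s t : ℕ) (a : ℕ × ℕ) : Bool :=
  !decide (a.1 = a.2) && ((decide (a.2 % 3 = 1) || (decide (a.1 % 3 = 1) && decide (a.2 = 3 * s))) ||
    (decide (a.1 % 3 = 2) || (decide (a.1 = 3 * t) && decide (a.2 % 3 = 2))))

/-- All ordered pairs. -/
def pairs (W : List ℕ) : List (ℕ × ℕ) := W.flatMap (fun u => W.map (fun v => (u, v)))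

/-- The forcing arcs of the new digraph. -/
def heavy (V : List ℕ) (M s t : ℕ) : List (ℕ × ℕ) := (pairs (dV V M)).filter (fun a => pred s t a)

/-- The reduction. -/
def redD (I : H118R3.RB.Instance) : Instance :=
  ((dV I.1.1 (I.1.2.1.length + 1),
    base I.1.2.1 ++ heavy I.1.1 (I.1.2.1.length + 1) I.2.1.1 I.2.1.2, base I.1.2.2),
    (min I.2.2.1 I.1.2.1.length, I.2.2.2))

theorem mem_dV {V : List ℕ} {M x : ℕ} : x ∈ dV V M ↔
    (∃ v ∈ V, 3 * v = x) ∨ (∃ i < M, 3 * i + 1 = x) ∨ (∃ i < M, 3 * i + 2 = x) := by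
  simp [dV]

theorem mem_pairs {W : List ℕ} {a : ℕ × ℕ} : a ∈ pairs W ↔ a.1 ∈ W ∧ a.2 ∈ W := by
  obtain ⟨x, y⟩ := a
  simp only [pairs, List.mem_flatMap, List.mem_map, Prod.mk.injEq]
  constructor
  · rintro ⟨u, hu, v, hv, rfl, rfl⟩
    exact ⟨hu, hv⟩
  · rintro ⟨hx, hy⟩
    exact ⟨x, hx, y, hy, rfl, rfl⟩

theorem nodup_pairs {W : List ℕ} (h : W.Nodup) : (pairs W).Nodup := by
  have : pairs W = W ×ˢ W := by
    unfold pairs
    rfl
  rw [this]
  exact h.product h

theorem nodup_dV {V : List ℕ} {M : ℕ} (h : V.Nodup) : (dV V M).Nodup := by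
  unfold dV
  rw [List.nodup_append, List.nodup_append]
  refine ⟨h.map (fun a b hab => by simpa using hab), ⟨?_, ?_, ?_⟩, ?_⟩
  · exact List.nodup_range.map (fun a b hab => by simpa using hab)
  · exact List.nodup_range.map (fun a b hab => by simpa using hab)
  · intro a ha b hb
    simp only [List.mem_map] at ha hb
    obtain ⟨i, _, rfl⟩ := ha
    obtain ⟨j, _, rfl⟩ := hb
    omega
  · intro a ha b hb
    simp only [List.mem_append, List.mem_map] at ha hb
    obtain ⟨v, _, rfl⟩ := ha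
    rcases hb with ⟨j, _, rfl⟩ | ⟨j, _, rfl⟩ <;> omega

theorem mem_base {E : List (ℕ × ℕ)} {a : ℕ × ℕ} : a ∈ base E ↔
    ∃ e ∈ E, a = (3 * e.1, 3 * e.2) ∨ a = (3 * e.2, 3 * e.1) := by
  simp only [base, List.mem_append, List.mem_map]
  constructor
  · rintro (⟨e, he, rfl⟩ | ⟨e, he, rfl⟩)
    · exact ⟨e, he, Or.inl rfl⟩
    · exact ⟨e, he, Or.inr rfl⟩
  · rintro ⟨e, he, rfl | rfl⟩
    · exact Or.inl ⟨e, he, rfl⟩
    · exact Or.inr ⟨e, he, rfl⟩

/-- Distinctness of the unordered pairs gives distinctness of the arcs. -/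
theorem nodup_base {E : List (ℕ × ℕ)} (hE : ∀ e ∈ E, e.1 ≠ e.2)
    (h : (E.map (fun e => s(e.1, e.2))).Nodup) : (base E).Nodup := by
  have hn : E.Nodup := h.of_map
  unfold base
  rw [List.nodup_append]
  refine ⟨hn.map (fun a b hab => ?_), hn.map (fun a b hab => ?_), ?_⟩
  · simp only [Prod.mk.injEq] at hab
    exact Prod.ext (by omega) (by omega)
  · simp only [Prod.mk.injEq] at hab
    exact Prod.ext (by omega) (by omega)
  · intro a ha b hb
    simp only [List.mem_map] at ha hb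
    obtain ⟨e, he, rfl⟩ := ha
    obtain ⟨f, hf, rfl⟩ := hb
    intro heq
    simp only [Prod.mk.injEq] at heq
    have h1 : e = f := by
      refine List.inj_on_of_nodup_map h he hf ?_
      rw [Sym2.eq_iff]
      right
      omega
    subst h1
    exact hE e he (by omega)

theorem base_append (E F : List (ℕ × ℕ)) (a : ℕ × ℕ) :
    a ∈ base (E ++ F) ↔ a ∈ base E ∨ a ∈ base F := by
  simp only [mem_base, List.mem_append]
  constructor
  · rintro ⟨e, h | h, h'⟩
    · exact Or.inl ⟨e, h, h'⟩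
    · exact Or.inr ⟨e, h, h'⟩
  · rintro (⟨e, h, h'⟩ | ⟨e, h, h'⟩)
    · exact ⟨e, Or.inl h, h'⟩
    · exact ⟨e, Or.inr h, h'⟩

/-- The new digraph is a simple digraph. -/
theorem valid_redD {I : H118R3.RB.Instance} (h : Valid I) :
    IsDigraph (redD I).1.1 ((redD I).1.2.1 ++ (redD I).1.2.2) ∧
      IsSimple ((redD I).1.2.1 ++ (redD I).1.2.2) := by
  obtain ⟨⟨V, R, B⟩, ⟨s, t⟩, ⟨r, b⟩⟩ := I
  obtain ⟨⟨hV, hE, hN⟩, hs, ht, hst⟩ := h
  simp only at hV hE hN hs ht hst
  simp only [redD]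
  set M := R.length + 1 with hM
  have hRm : ∀ e ∈ R, e.1 ∈ V ∧ e.2 ∈ V ∧ e.1 ≠ e.2 := fun e he =>
    hE e (List.mem_append_left _ he)
  have hBm : ∀ e ∈ B, e.1 ∈ V ∧ e.2 ∈ V ∧ e.1 ≠ e.2 := fun e he =>
    hE e (List.mem_append_right _ he)
  rw [List.map_append, List.nodup_append] at hN
  have key : ∀ E : List (ℕ × ℕ), (∀ e ∈ E, e.1 ∈ V ∧ e.2 ∈ V ∧ e.1 ≠ e.2) → ∀ a ∈ base E,
      a.1 ∈ dV V M ∧ a.2 ∈ dV V M ∧ a.1 ≠ a.2 := by
    intro E hE a ha
    obtain ⟨e, he, rfl | rfl⟩ := mem_base.1 ha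
    · obtain ⟨h1, h2, h3⟩ := hE e he
      exact ⟨mem_dV.2 (Or.inl ⟨_, h1, rfl⟩), mem_dV.2 (Or.inl ⟨_, h2, rfl⟩), by simp only; omega⟩
    · obtain ⟨h1, h2, h3⟩ := hE e he
      exact ⟨mem_dV.2 (Or.inl ⟨_, h2, rfl⟩), mem_dV.2 (Or.inl ⟨_, h1, rfl⟩), by simp only; omega⟩
  have hheavy : ∀ a ∈ heavy V M s t, a.1 ∈ dV V M ∧ a.2 ∈ dV V M ∧ a.1 ≠ a.2 ∧
      (a.1 % 3 ≠ 0 ∨ a.2 % 3 ≠ 0) := by
    intro a ha
    unfold heavy at ha
    rw [List.mem_filter, mem_pairs] at ha
    obtain ⟨⟨h1, h2⟩, h3⟩ := ha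
    unfold pred at h3
    simp only [Bool.and_eq_true, Bool.not_eq_true', decide_eq_false_iff_not, Bool.or_eq_true,
      decide_eq_true_eq] at h3
    exact ⟨h1, h2, h3.1, by omega⟩
  have hbase0 : ∀ E : List (ℕ × ℕ), ∀ a ∈ base E, a.1 % 3 = 0 ∧ a.2 % 3 = 0 := by
    intro E a ha
    obtain ⟨e, he, rfl | rfl⟩ := mem_base.1 ha
    · simp only; omega
    · simp only; omega
  refine ⟨⟨nodup_dV hV, ?_⟩, ?_, ?_⟩
  · intro a ha
    simp only [List.mem_append] at ha
    rcases ha with (ha | ha) | ha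
    · exact ⟨(key R hRm a ha).1, (key R hRm a ha).2.1⟩
    · exact ⟨(hheavy a ha).1, (hheavy a ha).2.1⟩
    · exact ⟨(key B hBm a ha).1, (key B hBm a ha).2.1⟩
  · rw [List.nodup_append, List.nodup_append]
    refine ⟨⟨nodup_base (fun e he => (hRm e he).2.2) hN.1, (nodup_pairs (nodup_dV hV)).filter _, ?_⟩,
      nodup_base (fun e he => (hBm e he).2.2) hN.2.1, ?_⟩
    · intro a ha b hb hab
      subst hab
      have h1 := hbase0 R a ha
      have h2 := (hheavy a hb).2.2.2
      omega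
    · intro a ha b hb hab
      subst hab
      rcases List.mem_append.1 ha with ha | ha
      · obtain ⟨e, he, h1⟩ := mem_base.1 ha
        obtain ⟨f, hf, h2⟩ := mem_base.1 hb
        refine hN.2.2 s(e.1, e.2) (List.mem_map.2 ⟨e, he, rfl⟩) s(f.1, f.2)
          (List.mem_map.2 ⟨f, hf, rfl⟩) ?_
        rw [Sym2.eq_iff]
        simp only [Prod.ext_iff] at h1 h2
        omega
      · have h1 := hbase0 B a hb
        have h2 := (hheavy a ha).2.2.2
        omega
  · intro a ha
    simp only [List.mem_append] at ha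
    rcases ha with (ha | ha) | ha
    · exact (key R hRm a ha).2.2
    · exact (hheavy a ha).2.2.1
    · exact (key B hBm a ha).2.2

/-! ### Counting arcs that leave a set -/

theorem length_leaving_append (X : Finset ℕ) (A A' : List (ℕ × ℕ)) :
    (leaving X (A ++ A')).length = (leaving X A).length + (leaving X A').length := by
  simp [leaving]

theorem leaving_base (X : Finset ℕ) (Y : Finset ℕ) (E : List (ℕ × ℕ))
    (h : ∀ e ∈ E, (3 * e.1 ∈ X ↔ e.1 ∈ Y) ∧ (3 * e.2 ∈ X ↔ e.2 ∈ Y)) :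
    (leaving X (base E)).length = (cutEdges Y E).length := by
  induction E with
  | nil => rfl
  | cons e E ih =>
    have h1 := h e (by simp)
    have h2 := ih (fun e' he' => h e' (List.mem_cons_of_mem _ he'))
    simp only [leaving, base, cutEdges, List.filter_append, List.length_append, List.map_cons,
      List.filter_cons] at h2 ⊢
    by_cases ha : e.1 ∈ Y <;> by_cases hb : e.2 ∈ Y <;> simp [ha, hb, h1.1, h1.2] <;> omega

/-- A lower bound for the number of arcs leaving a set. -/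
theorem le_leaving {X : Finset ℕ} {A : List (ℕ × ℕ)} {M : ℕ} (f : ℕ → ℕ × ℕ)
    (hinj : ∀ i < M, ∀ j < M, f i = f j → i = j)
    (hmem : ∀ i < M, f i ∈ A ∧ (f i).1 ∈ X ∧ (f i).2 ∉ X) : M ≤ (leaving X A).length := by
  have h1 : ((List.range M).map f).Nodup := by
    refine List.Nodup.map_on ?_ List.nodup_range
    intro i hi j hj hij
    exact hinj i (List.mem_range.1 hi) j (List.mem_range.1 hj) hij
  have h2 : (List.range M).map f ⊆ leaving X A := by
    intro a ha
    obtain ⟨i, hi, rfl⟩ := List.mem_map.1 ha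
    have h := hmem i (List.mem_range.1 hi)
    unfold leaving
    rw [List.mem_filter]
    exact ⟨h.1, by simp [h.2.1, h.2.2]⟩
  have h3 := (h1.subperm h2).length_le
  simpa using h3

theorem mem_heavy {V : List ℕ} {M s t : ℕ} {a : ℕ × ℕ} (h1 : a.1 ∈ dV V M) (h2 : a.2 ∈ dV V M)
    (h3 : pred s t a = true) : a ∈ heavy V M s t := by
  unfold heavy
  rw [List.mem_filter, mem_pairs]
  exact ⟨⟨h1, h2⟩, h3⟩

theorem le_leaving_heavy_s {V : List ℕ} {M s t : ℕ} {X : Finset ℕ} (hs : s ∈ V)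
    (hX : X ⊆ (dV V M).toFinset) (hne : X.Nonempty) (hsX : 3 * s ∉ X) :
    M ≤ (leaving X (heavy V M s t)).length := by
  obtain ⟨v, hv⟩ := hne
  have hsV : 3 * s ∈ dV V M := mem_dV.2 (Or.inl ⟨s, hs, rfl⟩)
  have hvV : v ∈ dV V M := List.mem_toFinset.1 (hX hv)
  refine le_leaving (fun i => if 3 * i + 1 ∈ X then (3 * i + 1, 3 * s) else (v, 3 * i + 1)) ?_ ?_
  · intro i hi j hj hij
    split_ifs at hij <;> simp only [Prod.mk.injEq] at hij <;> omega
  · intro i hi
    have hiV : 3 * i + 1 ∈ dV V M := mem_dV.2 (Or.inr (Or.inl ⟨i, hi, rfl⟩))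
    split_ifs with h
    · refine ⟨mem_heavy hiV hsV ?_, h, hsX⟩
      unfold pred
      have e1 : (3 * i + 1) % 3 = 1 := by omega
      have e2 : ¬ (3 * i + 1 = 3 * s) := by omega
      simp [e1, e2]
    · refine ⟨mem_heavy hvV hiV ?_, hv, h⟩
      unfold pred
      have e1 : (3 * i + 1) % 3 = 1 := by omega
      have e2 : ¬ (v = 3 * i + 1) := by
        rintro rfl
        exact h hv
      simp [e1, e2]

theorem le_leaving_heavy_t {V : List ℕ} {M s t : ℕ} {X : Finset ℕ} (ht : t ∈ V) {v : ℕ}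
    (hvV : v ∈ dV V M) (hv : v ∉ X) (htX : 3 * t ∈ X) :
    M ≤ (leaving X (heavy V M s t)).length := by
  have htV : 3 * t ∈ dV V M := mem_dV.2 (Or.inl ⟨t, ht, rfl⟩)
  refine le_leaving (fun i => if 3 * i + 2 ∈ X then (3 * i + 2, v) else (3 * t, 3 * i + 2)) ?_ ?_
  · intro i hi j hj hij
    split_ifs at hij <;> simp only [Prod.mk.injEq] at hij <;> omega
  · intro i hi
    have hiV : 3 * i + 2 ∈ dV V M := mem_dV.2 (Or.inr (Or.inr ⟨i, hi, rfl⟩))
    split_ifs with h
    · refine ⟨mem_heavy hiV hvV ?_, h, hv⟩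
      unfold pred
      have e1 : (3 * i + 2) % 3 = 2 := by omega
      have e2 : ¬ (3 * i + 2 = v) := by
        rintro rfl
        exact hv h
      simp [e1, e2]
    · refine ⟨mem_heavy htV hiV ?_, htX, h⟩
      unfold pred
      have e1 : (3 * i + 2) % 3 = 2 := by omega
      have e2 : ¬ (3 * t = 3 * i + 2) := by omega
      simp [e1, e2]

/-- Correctness of the reduction. -/
theorem redD_correct {I : H118R3.RB.Instance} (h : Valid I) :
    RedBlueCut I ↔ DirectedRedBlueCut (redD I) := by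
  have hval := valid_redD h
  obtain ⟨⟨V, R, B⟩, ⟨s, t⟩, ⟨r, b⟩⟩ := I
  obtain ⟨hG, hs, ht, hst⟩ := h
  simp only at hG hs ht hst
  simp only [redD] at hval
  simp only [RedBlueCut, redD, DirectedRedBlueCut, hG, hs, ht, true_and, hval.1, ne_eq, hst,
    not_false_eq_true]
  set M := R.length + 1 with hM
  have hRm : ∀ e ∈ R, e.1 ∈ V ∧ e.2 ∈ V := fun e he =>
    ⟨(hG.2.1 e (List.mem_append_left _ he)).1, (hG.2.1 e (List.mem_append_left _ he)).2.1⟩
  have hBm : ∀ e ∈ B, e.1 ∈ V ∧ e.2 ∈ V := fun e he =>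
    ⟨(hG.2.1 e (List.mem_append_right _ he)).1, (hG.2.1 e (List.mem_append_right _ he)).2.1⟩
  constructor
  · rintro ⟨X, hXV, hsX, htX, hr, hb⟩
    let Y : Finset ℕ := X.image (fun v => 3 * v) ∪ (Finset.range M).image (fun i => 3 * i + 1)
    have hY0 : ∀ v, 3 * v ∈ Y ↔ v ∈ X := by
      intro v
      simp only [Y, Finset.mem_union, Finset.mem_image]
      constructor
      · rintro (⟨w, hw, h⟩ | ⟨i, _, h⟩)
        · have : w = v := by omega
          exact this ▸ hw
        · omega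
      · intro hv
        exact Or.inl ⟨v, hv, rfl⟩
    have hY1 : ∀ i, 3 * i + 1 ∈ Y ↔ i < M := by
      intro i
      simp only [Y, Finset.mem_union, Finset.mem_image, Finset.mem_range]
      constructor
      · rintro (⟨w, hw, h⟩ | ⟨j, hj, h⟩)
        · omega
        · omega
      · intro hv
        exact Or.inr ⟨i, hv, rfl⟩
    have hY2 : ∀ i, 3 * i + 2 ∉ Y := by
      intro i
      simp only [Y, Finset.mem_union, Finset.mem_image, Finset.mem_range, not_or, not_exists,
        not_and]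
      exact ⟨fun w _ => by omega, fun w _ => by omega⟩
    have hh : (leaving Y (heavy V M s t)).length = 0 := by
      rw [List.length_eq_zero_iff]
      unfold leaving
      rw [List.filter_eq_nil_iff]
      rintro ⟨x, y⟩ ha
      unfold heavy at ha
      rw [List.mem_filter, mem_pairs] at ha
      obtain ⟨⟨h1, h2⟩, h3⟩ := ha
      simp only at h1 h2
      unfold pred at h3
      simp only [Bool.and_eq_true, Bool.not_eq_true', decide_eq_false_iff_not, Bool.or_eq_true,
        decide_eq_true_eq] at h3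
      simp only [Bool.and_eq_true, decide_eq_true_eq, Bool.not_eq_true', decide_eq_false_iff_not,
        not_and, not_not]
      intro hx
      rcases mem_dV.1 h1 with ⟨u, hu, rfl⟩ | ⟨i, hi, rfl⟩ | ⟨i, hi, rfl⟩
      · rcases mem_dV.1 h2 with ⟨v, hv, rfl⟩ | ⟨j, hj, rfl⟩ | ⟨j, hj, rfl⟩
        · omega
        · exact (hY1 j).2 hj
        · have hut : u = t := by omega
          subst hut
          exact absurd ((hY0 u).1 hx) htX
      · rcases mem_dV.1 h2 with ⟨v, hv, rfl⟩ | ⟨j, hj, rfl⟩ | ⟨j, hj, rfl⟩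
        · have hut : v = s := by omega
          subst hut
          exact (hY0 v).2 hsX
        · exact (hY1 j).2 hj
        · omega
      · exact absurd hx (hY2 i)
    refine ⟨Y, ⟨3 * s, (hY0 s).2 hsX⟩, ?_, ?_, ?_⟩
    · rw [Finset.ssubset_iff_of_subset]
      · exact ⟨3 * t, List.mem_toFinset.2 (mem_dV.2 (Or.inl ⟨t, ht, rfl⟩)),
          fun h => htX ((hY0 t).1 h)⟩
      · intro y hy
        rw [List.mem_toFinset, mem_dV]
        simp only [Y, Finset.mem_union, Finset.mem_image, Finset.mem_range] at hy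
        rcases hy with ⟨v, hv, rfl⟩ | ⟨i, hi, rfl⟩
        · exact Or.inl ⟨v, hXV v hv, rfl⟩
        · exact Or.inr (Or.inl ⟨i, hi, rfl⟩)
    · rw [length_leaving_append, hh, leaving_base Y X R (fun e _ => ⟨hY0 _, hY0 _⟩)]
      have : (cutEdges X R).length ≤ R.length := List.length_filter_le _ _
      omega
    · rw [leaving_base Y X B (fun e _ => ⟨hY0 _, hY0 _⟩)]
      exact hb
  · rintro ⟨Y, hYne, hYV, hr, hb⟩
    rw [length_leaving_append] at hr
    have hsY : 3 * s ∈ Y := by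
      by_contra hcon
      have := le_leaving_heavy_s (t := t) hs hYV.1 hYne hcon
      omega
    have htY : 3 * t ∉ Y := by
      intro hcon
      obtain ⟨v, hv, hvY⟩ := Finset.exists_of_ssubset hYV
      have := le_leaving_heavy_t (s := s) ht (List.mem_toFinset.1 hv) hvY hcon
      omega
    let X : Finset ℕ := V.toFinset.filter (fun v => 3 * v ∈ Y)
    have hX : ∀ v ∈ V, (3 * v ∈ Y ↔ v ∈ X) := by
      intro v hv
      simp [X, hv]
    refine ⟨X, ?_, (hX s hs).1 hsY, fun h => htY ((hX t ht).2 h), ?_, ?_⟩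
    · intro v hv
      simp only [X, Finset.mem_filter, List.mem_toFinset] at hv
      exact hv.1
    · rw [leaving_base Y X R (fun e he => ⟨hX _ (hRm e he).1, hX _ (hRm e he).2⟩)] at hr
      omega
    · rw [leaving_base Y X B (fun e he => ⟨hX _ (hBm e he).1, hX _ (hBm e he).2⟩)] at hb
      exact hb

/-! ### The reduction is computable in polynomial time -/

theorem poly_base {α : Type} [TEnc α] {E : α → List (ℕ × ℕ)} (hE : Poly E) :
    Poly (fun a => base (E a)) := by
  have h3 : ∀ {m : α × ℕ × ℕ → ℕ}, Poly m → Poly (fun a => 3 * m a) :=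
    fun hm => Poly.mul (Poly.const 3) hm
  refine Poly.append ?_ ?_
  · exact Poly.map (F := fun _ (e : ℕ × ℕ) => (3 * e.1, 3 * e.2)) hE
      (Poly.pair (h3 (Poly.fst (Poly.snd Poly.id))) (h3 (Poly.snd (Poly.snd Poly.id))))
  · exact Poly.map (F := fun _ (e : ℕ × ℕ) => (3 * e.2, 3 * e.1)) hE
      (Poly.pair (h3 (Poly.snd (Poly.snd Poly.id))) (h3 (Poly.fst (Poly.snd Poly.id))))

theorem poly_dV {α : Type} [TEnc α] {V : α → List ℕ} {M : α → ℕ} (hV : Poly V) (hM : UPoly M) :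
    Poly (fun a => dV (V a) (M a)) := by
  refine Poly.append ?_ (Poly.append ?_ ?_)
  · exact Poly.map (F := fun _ (v : ℕ) => 3 * v) hV (Poly.mul (Poly.const 3) (Poly.snd Poly.id))
  · exact Poly.map (F := fun _ (v : ℕ) => 3 * v + 1) hM.range
      (Poly.add (Poly.mul (Poly.const 3) (Poly.snd Poly.id)) (Poly.const 1))
  · exact Poly.map (F := fun _ (v : ℕ) => 3 * v + 2) hM.range
      (Poly.add (Poly.mul (Poly.const 3) (Poly.snd Poly.id)) (Poly.const 2))

theorem poly_pairs {α : Type} [TEnc α] {W : α → List ℕ} (hW : Poly W) :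
    Poly (fun a => pairs (W a)) := by
  refine Poly.flatMap (F := fun a u => (W a).map (fun v => (u, v))) hW ?_
  exact Poly.map (F := fun (x : α × ℕ) (v : ℕ) => (x.2, v)) (hW.comp (Poly.fst Poly.id))
    (Poly.pair (Poly.snd (Poly.fst Poly.id)) (Poly.snd Poly.id))

theorem poly_heavy {α : Type} [TEnc α] {V : α → List ℕ} {M s t : α → ℕ} (hV : Poly V)
    (hM : UPoly M) (hs : Poly s) (ht : Poly t) :
    Poly (fun a => heavy (V a) (M a) (s a) (t a)) := by
  refine Poly.filter (p := fun a x => pred (s a) (t a) x) (poly_pairs (poly_dV hV hM)) ?_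
  have h1 : Poly (fun x : α × ℕ × ℕ => x.2.1) := Poly.fst (Poly.snd Poly.id)
  have h2 : Poly (fun x : α × ℕ × ℕ => x.2.2) := Poly.snd (Poly.snd Poly.id)
  have hs' : Poly (fun x : α × ℕ × ℕ => 3 * s x.1) :=
    Poly.mul (Poly.const 3) (hs.comp (Poly.fst Poly.id))
  have ht' : Poly (fun x : α × ℕ × ℕ => 3 * t x.1) :=
    Poly.mul (Poly.const 3) (ht.comp (Poly.fst Poly.id))
  unfold pred
  refine Poly.and (Poly.not (Poly.decide_eq h1 h2)) (Poly.or (Poly.or ?_ (Poly.and ?_ ?_))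
    (Poly.or ?_ (Poly.and ?_ ?_)))
  · exact Poly.decide_eq (Poly.mod h2 (Poly.const 3)) (Poly.const 1)
  · exact Poly.decide_eq (Poly.mod h1 (Poly.const 3)) (Poly.const 1)
  · exact Poly.decide_eq h2 hs'
  · exact Poly.decide_eq (Poly.mod h1 (Poly.const 3)) (Poly.const 2)
  · exact Poly.decide_eq h1 ht'
  · exact Poly.decide_eq (Poly.mod h2 (Poly.const 3)) (Poly.const 2)

theorem poly_redD : Poly redD := by
  have hV : Poly (fun I : H118R3.RB.Instance => I.1.1) := Poly.fst (Poly.fst Poly.id)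
  have hR : Poly (fun I : H118R3.RB.Instance => I.1.2.1) := Poly.fst (Poly.snd (Poly.fst Poly.id))
  have hB : Poly (fun I : H118R3.RB.Instance => I.1.2.2) := Poly.snd (Poly.snd (Poly.fst Poly.id))
  have hs : Poly (fun I : H118R3.RB.Instance => I.2.1.1) := Poly.fst (Poly.fst (Poly.snd Poly.id))
  have ht : Poly (fun I : H118R3.RB.Instance => I.2.1.2) := Poly.snd (Poly.fst (Poly.snd Poly.id))
  have hr : Poly (fun I : H118R3.RB.Instance => I.2.2.1) := Poly.fst (Poly.snd (Poly.snd Poly.id))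
  have hb : Poly (fun I : H118R3.RB.Instance => I.2.2.2) := Poly.snd (Poly.snd (Poly.snd Poly.id))
  have hM : UPoly (fun I : H118R3.RB.Instance => I.1.2.1.length + 1) :=
    UPoly.add (UPoly.length hR) (UPoly.const 1)
  exact Poly.pair (Poly.pair (poly_dV hV hM) (Poly.pair (Poly.append (poly_base hR)
    (poly_heavy hV hM hs ht)) (poly_base hB))) (Poly.pair (Poly.min hr (Poly.length hR)) hb)

theorem npHard_directed : NPHardP DirectedRedBlueCut := by
  have h : HardPr (fun _ => True) DirectedRedBlueCut :=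
    hardPr_redBlueCut.trans poly_redD (fun _ _ => trivial) (fun _ h => redD_correct h)
  exact h.toHardI.toNPHardP

theorem npHard_simpleDirected : NPHardP SimpleDirectedRedBlueCut := by
  have h : HardPr (fun _ => True) SimpleDirectedRedBlueCut :=
    hardPr_redBlueCut.trans poly_redD (fun _ _ => trivial) (fun I h =>
      (redD_correct h).trans ⟨fun h' => ⟨(valid_redD h).2, h'⟩, fun h' => h'.2⟩)
  exact h.toHardI.toNPHardP

end Pool.Agent.NPC.H593R3.DRB
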